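import Mathlib
import Pool.Agent.H965Z.ThinHT.Blocks

/-!
Over `RCA₀` alone, thin-HT implies arithmetical comprehension.

`L2Structure` (structures for the language of second-order arithmetic, Henkin semantics),
`IsModelRCA0`, `FunIn`, `IsFin` and `ArithComp` are in `Pool.Agent.Helper617.RM.Defs`, `Orders`
and `HLDefs`; `IsSum`, `FS` and `ThinHT` are in `Pool.Agent.H965Z.ThinHT.Defs`.
-/

namespace Pool.Agent.Results.MP_6f1bc5_lc.AThinHTImpliesACA

open Pool.Agent.Helper617.RM Pool.Agent.H965Z.Thin

universe u

/-- Every model of `RCA₀` in which thin-HT holds satisfies arithmetical comprehension. -/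
theorem result (N : L2Structure.{u}) (hN : IsModelRCA0 N) (h : ThinHT N) : ArithComp N :=
  arithComp_of_thinHT h

end Pool.Agent.Results.MP_6f1bc5_lc.AThinHTImpliesACA
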